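import Pool.Agent.Q82.Frac2

/-! # MP_5a0ad8_an: the fractional part integral operator is not of trace class -/

namespace Pool.Agent.Results.MP_5a0ad8_an.NotTraceClass

open MeasureTheory Set
open scoped InnerProductSpace

noncomputable section

/-- Lebesgue measure on `(0,1]`. -/
abbrev mu : Measure ℝ := volume.restrict (Ioc (0 : ℝ) 1)

/-- The complex Hilbert space `L²([0,1])`. -/
abbrev H : Type := Lp ℂ 2 mu

/-- Bounded operators on `L²([0,1])`. -/
abbrev Op : Type := H →L[ℂ] H

/-- The value `A x`. -/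
def ap (A : Op) (x : H) : H := A x

/-- The kernel `{u/y} / (u/y)`. -/
def K (y u : ℝ) : ℝ := Int.fract (u / y) / (u / y)

/-- `T` is the integral operator with kernel `K`. -/
def IsT (T : Op) : Prop := ∀ h : H, ∀ᵐ y ∂mu, ap T h y = ∫ u, (K y u : ℂ) * h u ∂mu

/-- `e` is an eigenvector (or zero) of `A* A` for the eigenvalue `s ^ 2`, that is,
`⟨A x, A e⟩ = s ^ 2 ⟨x, e⟩` for all `x`. -/
def IsEigen (A : Op) (e : H) (s : ℝ) : Prop :=
  ∀ x : H, ⟪ap A x, ap A e⟫_ℂ = ((s ^ 2 : ℝ) : ℂ) * ⟪x, e⟫_ℂ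

/-- `s` is the family of the singular values of `A`, counted with multiplicity, and `e` a family
of eigenvectors: the `e i` are orthonormal, `s i ≥ 0`, `e i` is an eigenvector of `A* A` for the
eigenvalue `s i ^ 2`, and `A` vanishes on the orthogonal complement of the `e i`. -/
def IsSystem (A : Op) (ι : Type) (e : ι → H) (s : ι → ℝ) : Prop :=
  Orthonormal ℂ e ∧ (∀ i, 0 ≤ s i ∧ IsEigen A (e i) (s i)) ∧
    ∀ x, (∀ i, ⟪e i, x⟫_ℂ = 0) → ap A x = 0

/-- `F` has rank at most `n`. -/
def RankLE (F : Op) (n : ℕ) : Prop :=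
  ∃ v : Fin n → H, ∀ x, ap F x ∈ Submodule.span ℂ (range v)

lemma isEigen_iff (A : Op) (e : H) (s : ℝ) :
    IsEigen A e s ↔ Q82.SingVal.adj A (A e) = ((s ^ 2 : ℝ) : ℂ) • e := by
  have h : ∀ x, ⟪x, Q82.SingVal.adj A (A e)⟫_ℂ = ⟪A x, A e⟫_ℂ := fun x =>
    ContinuousLinearMap.adjoint_inner_right A x (A e)
  constructor
  · intro h1
    apply ext_inner_left ℂ
    intro x
    rw [h, inner_smul_right]
    exact h1 x
  · intro h1 x
    change ⟪A x, A e⟫_ℂ = _
    rw [← h, h1, inner_smul_right]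

lemma isSystem_iff (A : Op) (ι : Type) (e : ι → H) (s : ι → ℝ) :
    IsSystem A ι e s ↔ Q82.SingVal.IsSystem A e s := by
  unfold IsSystem Q82.SingVal.IsSystem
  simp only [isEigen_iff]
  rfl

/-- The operator `T` is bounded and compact; its singular values (any number of times, in
whatever enumeration) do not have a finite sum; and its approximation numbers (which are its
singular values in decreasing order) are at least `1 / (8 π (n + 1))`, `n ≥ 0`. -/
theorem result : ∃ T : Op, IsT T ∧ IsCompactOperator T ∧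
    (∃ ι e s, IsSystem T ι e s) ∧
    (∀ ι e s, IsSystem T ι e s → ¬ Summable s) ∧
    ∀ (n : ℕ) (F : Op), RankLE F n → 1 / (8 * Real.pi * (n + 1)) ≤ ‖T - F‖ := by
  refine ⟨Q82.Frac.T, Q82.Frac.T_apply, Q82.Frac.T_compact, ?_, ?_, ?_⟩
  · obtain ⟨ι, e, s, h⟩ := Q82.SingVal.exists_system Q82.Frac.T_compact
    exact ⟨ι, e, s, (isSystem_iff _ _ _ _).2 h⟩
  · intro ι e s h
    exact Q82.Frac.not_trace ((isSystem_iff _ _ _ _).1 h)
  · rintro n F ⟨v, hv⟩
    have hle : F.range ≤ Submodule.span ℂ (range v) := by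
      rintro _ ⟨x, rfl⟩
      exact hv x
    have hfin : Module.Finite ℂ (Submodule.span ℂ (range v)) :=
      FiniteDimensional.span_of_finite ℂ (finite_range v)
    have h1 : Module.finrank ℂ F.range ≤ n := by
      refine (Submodule.finrank_mono hle).trans ?_
      have := finrank_range_le_card (R := ℂ) (b := v)
      rwa [Fintype.card_fin] at this
    have h2 : Module.Finite ℂ F.range := Submodule.finiteDimensional_of_le hle
    have := Q82.Frac.approx_lower n F h2 h1
    rwa [div_div] at this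

end

end Pool.Agent.Results.MP_5a0ad8_an.NotTraceClass
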